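import Pool.Agent.K9h71.RC.SHB
import Pool.Agent.K9h71.RD.Main
import Pool.Agent.K9h96.LS.FIN3

/-!
# Project RC (helper71): the random symbol on the shells
-/

set_option autoImplicit false

open MeasureTheory Set ProbabilityTheory
open scoped ENNReal FourierTransform RealInnerProductSpace SchwartzMap

namespace Pool.Agent.K9h71.RC

open Pool.Agent.N303.LS
open Pool.Agent.K9h96.LS (hd ls S_ENL)
open Pool.Agent.K9h96.LS.FIN (P ph ph_zero)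
open Pool.Agent.K9h71.RD (rmul maj maj_top near near_zero tsum_bd bd_phi psia_one' S_MZ)

/-- the points of `ℤ^m` in `(-R, R)^m` -/
noncomputable def cube (m R : ℕ) : Finset (Fin m → ℤ) :=
  Fintype.piFinset fun _ => Finset.Ioo (-(R : ℤ)) R

lemma mem_cube {m R : ℕ} (n : Fin m → ℤ) : n ∈ cube m R ↔ ∀ i, |n i| < R := by
  unfold cube
  rw [Fintype.mem_piFinset]
  refine forall_congr' fun i => ?_
  rw [Finset.mem_Ioo, abs_lt]

/-- the points of a block in a cube -/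
noncomputable def blk {m : ℕ} (b : (Fin m → ℤ) → ℕ) (R n : ℕ) : Finset (Fin m → ℤ) :=
  (cube m R).filter fun k => b k = n

lemma blk_disj {m : ℕ} (b : (Fin m → ℤ) → ℕ) (R : ℕ) (i j : ℕ) (h : i ≠ j) :
    Disjoint (blk b R i) (blk b R j) := by
  rw [Finset.disjoint_left]
  intro k hi hj
  unfold blk at hi hj
  rw [Finset.mem_filter] at hi hj
  exact h (hi.2.symm.trans hj.2)

lemma rmul_cube {m : ℕ} (K φ : 𝓢(E m, ℂ)) (hK : ∀ ξ, 𝓕 (K : E m → ℂ) ξ = φ ξ) (ρ : ℕ)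
    (hρ : ∀ ξ, φ ξ ≠ 0 → ∀ i, |ξ i| ≤ ρ) (b : (Fin m → ℤ) → ℕ) (g : ℕ → ℂ) (R : ℕ) (ξ : E m)
    (hξ : ∀ i, |ξ i| + ρ < R) :
    ∑ n ∈ (cube m R).image b, g n * psia K (blk b R n) (fun _ => 1) ξ = rmul φ b g ξ := by
  classical
  unfold rmul
  rw [tsum_eq_sum (s := cube m R) fun k hk => ?_]
  · rw [← Finset.sum_fiberwise_of_maps_to (s := cube m R) (t := (cube m R).image b)
      (g := b) (fun m hm => Finset.mem_image_of_mem b hm)]
    refine Finset.sum_congr rfl fun n _ => ?_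
    rw [psia_one' K φ hK, Finset.mul_sum]
    unfold blk
    refine Finset.sum_congr (by congr) fun k hk => ?_
    rw [Finset.mem_filter] at hk
    rw [hk.2]
  · by_contra hne
    apply hk
    rw [mem_cube]
    intro i
    have h0 : φ (ξ - pt k) ≠ 0 := fun h => hne (by rw [h, mul_zero])
    have h1 := hρ _ h0 i
    have h2 : (ξ - pt k) i = ξ i - k i := by simp [pt]
    rw [h2] at h1
    have h3 := hξ i
    have h4 : |(k i : ℝ)| ≤ |ξ i| + |ξ i - k i| := by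
      have : (k i : ℝ) = ξ i - (ξ i - k i) := by ring
      calc |(k i : ℝ)| = |ξ i - (ξ i - k i)| := by rw [← this]
        _ ≤ _ := abs_sub _ _
    have h5 : |(k i : ℝ)| < R := by linarith
    exact_mod_cast h5

/-- the random symbol on a shell -/
lemma rmul_ph {m : ℕ} (K φ : 𝓢(E m, ℂ)) (hK : ∀ ξ, 𝓕 (K : E m → ℂ) ξ = φ ξ) (ρ : ℕ)
    (hρ : ∀ ξ, φ ξ ≠ 0 → ∀ i, |ξ i| ≤ ρ) (L : 𝓢(E (m + 1), ℂ))
    (l0 : ∀ ξ : E (m + 1), (∃ i, 9 / 8 ≤ |ξ i|) → 𝓕 (L : E (m + 1) → ℂ) ξ = 0)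
    (b : (Fin m → ℤ) → ℕ) (g : ℕ → ℂ) (c : ℕ) (ζ : E (m + 1)) (z : ℂ) :
    ∑ n ∈ (cube m (2 ^ (c + 1 + ρ))).image b,
      g n * (psia K (blk b (2 ^ (c + 1 + ρ)) n) (fun _ => 1) (hd ζ) * (ph L c ζ * z)) =
      rmul φ b g (hd ζ) * (ph L c ζ * z) := by
  by_cases hb : ∃ i, (2 : ℝ) ^ c * (9 / 8) ≤ |ζ i|
  · rw [ph_zero L l0 c ζ hb]
    simp
  push Not at hb
  have h1 : ∀ i, |(hd ζ) i| + (ρ : ℝ) < ((2 ^ (c + 1 + ρ) : ℕ) : ℝ) := by
    intro i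
    have h2 := hb i.castSucc
    have h3 : (hd ζ) i = ζ i.castSucc := by simp [hd]
    rw [h3]
    have h4 : (1 : ℝ) ≤ 2 ^ c := one_le_pow₀ (by norm_num)
    have h5 : (1 : ℝ) + ρ ≤ 2 ^ ρ := by
      have : 1 + ρ ≤ 2 ^ ρ := by
        have := Nat.lt_two_pow_self (n := ρ)
        omega
      exact_mod_cast this
    have h6 : (0 : ℝ) ≤ ρ := Nat.cast_nonneg _
    push_cast
    rw [pow_add, pow_succ]
    nlinarith
  rw [← rmul_cube K φ hK ρ hρ b g (2 ^ (c + 1 + ρ)) (hd ζ) h1, Finset.sum_mul]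
  refine Finset.sum_congr rfl fun n _ => ?_
  ring

lemma rmul_maj {m : ℕ} (φ : 𝓢(E m, ℂ)) (ρ : ℕ) (hρ : ∀ ξ, φ ξ ≠ 0 → ∀ i, |ξ i| ≤ ρ)
    (b : (Fin m → ℤ) → ℕ) (g : ℕ → ℂ) (ξ : E m) : ‖rmul φ b g ξ‖ ≤ (maj φ b g ξ).toReal := by
  rw [← toReal_enorm]
  refine ENNReal.toReal_mono (maj_top φ ρ hρ b g ξ) ?_
  unfold rmul maj
  have e1 : ∑' k : Fin m → ℤ, g (b k) * φ (ξ - pt k) =
      ∑ k ∈ near ρ ξ, g (b k) * φ (ξ - pt k) :=
    tsum_eq_sum fun k hk => by rw [near_zero φ ρ hρ ξ k hk, mul_zero]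
  rw [e1]
  refine (enorm_sum_le _ _).trans ?_
  refine le_trans (le_of_eq ?_) (ENNReal.sum_le_tsum (near ρ ξ))
  exact Finset.sum_congr rfl fun k _ => enorm_mul _ _

/-- almost surely the majorant is integrable against the data -/
lemma maj_aeX {m : ℕ} (φ : 𝓢(E m, ℂ)) (ρ : ℕ) (hρ : ∀ ξ, φ ξ ≠ 0 → ∀ i, |ξ i| ≤ ρ)
    (b : (Fin m → ℤ) → ℕ) {Ω : Type} [MeasurableSpace Ω] (Pr : Measure Ω) [IsProbabilityMeasure Pr]
    (g : ℕ → Ω → ℂ) (hg : ∀ n, Measurable (g n)) (hg1 : ∀ n, ∫⁻ ω, ‖g n ω‖ₑ ∂Pr ≤ 1)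
    {X : Type} [MeasurableSpace X] (ν : Measure X) [SFinite ν] (h : X → E m) (hh : Measurable h)
    (H : X → ℝ≥0∞) (hH : Measurable H) (hHi : ∫⁻ x, H x ∂ν ≠ ⊤) :
    ∀ᵐ ω ∂Pr, ∫⁻ x, maj φ b (fun n => g n ω) (h x) * H x ∂ν ≠ ⊤ := by
  obtain ⟨B, hB0, hB⟩ := bd_phi φ
  have hφm : ∀ k : Fin m → ℤ, Measurable fun x => φ (h x - pt k) := fun k =>
    ((φ.continuous.comp (continuous_id.sub continuous_const)).measurable).comp hh
  have hm : Measurable fun z : Ω × X => maj φ b (fun n => g n z.1) (h z.2) * H z.2 := by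
    refine Measurable.mul ?_ (hH.comp measurable_snd)
    unfold maj
    refine Measurable.ennreal_tsum fun k => ?_
    exact Measurable.mul ((hg _).comp measurable_fst).enorm ((hφm k).comp measurable_snd).enorm
  have h1 : ∫⁻ ω, (∫⁻ x, maj φ b (fun n => g n ω) (h x) * H x ∂ν) ∂Pr ≤
      ((2 * ρ + 2) ^ m : ℕ) * ENNReal.ofReal B * ∫⁻ x, H x ∂ν := by
    rw [lintegral_lintegral_swap hm.aemeasurable, ← lintegral_const_mul _ hH]
    refine lintegral_mono fun x => ?_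
    have hmx : Measurable fun ω => maj φ b (fun n => g n ω) (h x) := by
      unfold maj
      refine Measurable.ennreal_tsum fun k => ?_
      exact (hg _).enorm.mul_const _
    rw [lintegral_mul_const _ hmx]
    refine mul_le_mul' ?_ le_rfl
    unfold maj
    rw [lintegral_tsum fun k => ((hg _).enorm.mul_const _).aemeasurable]
    refine le_trans (ENNReal.tsum_le_tsum fun k => ?_) (tsum_bd φ ρ hρ B hB (h x))
    rw [lintegral_mul_const _ (hg _).enorm]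
    calc (∫⁻ ω, ‖g (b k) ω‖ₑ ∂Pr) * ‖φ (h x - pt k)‖ₑ ≤ 1 * ‖φ (h x - pt k)‖ₑ :=
          mul_le_mul' (hg1 _) le_rfl
      _ = _ := one_mul _
  have h2 : ∫⁻ ω, (∫⁻ x, maj φ b (fun n => g n ω) (h x) * H x ∂ν) ∂Pr ≠ ⊤ := by
    refine ne_top_of_le_ne_top ?_ h1
    exact ENNReal.mul_ne_top (ENNReal.mul_ne_top (ENNReal.natCast_ne_top _)
      ENNReal.ofReal_ne_top) hHi
  have h3 := ae_lt_top (f := fun ω => ∫⁻ x, maj φ b (fun n => g n ω) (h x) * H x ∂ν)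
    (Measurable.lintegral_prod_right' (f := fun z : Ω × X =>
      maj φ b (fun n => g n z.1) (h z.2) * H z.2) hm) h2
  filter_upwards [h3] with ω h
  exact h.ne

/-- the mean over the random coefficients is bounded by the square function -/
theorem mean_sqX (hMZ : S_MZ) (p : ℝ) (hp : 2 ≤ p) : ∃ C : ℝ, 0 < C ∧
    ∀ (Ω : Type) (_ : MeasurableSpace Ω) (Pr : Measure Ω), IsProbabilityMeasure Pr →
    ∀ g : ℕ → Ω → ℂ, (∀ n, Measurable (g n)) → iIndepFun g Pr → (∀ n, ∫ ω, g n ω ∂Pr = 0) →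
    (∀ n, ∫⁻ ω, ‖g n ω‖ₑ ^ p ∂Pr ≤ 1) →
    ∀ (X : Type) (_ : MeasurableSpace X) (ν : Measure X), SFinite ν →
    ∀ (s : Finset ℕ) (w : ℕ → X → ℂ), (∀ n, Measurable (w n)) →
      ∫⁻ ω, (∫⁻ x, ‖∑ n ∈ s, g n ω * w n x‖ₑ ^ p ∂ν) ∂Pr ≤
        ENNReal.ofReal C * ∫⁻ x, (∑ n ∈ s, ‖w n x‖ₑ ^ (2 : ℝ)) ^ (p / 2) ∂ν := by
  obtain ⟨C, hC, h⟩ := hMZ p hp
  refine ⟨C, hC, ?_⟩
  intro Ω _ Pr _ g hgm hgi hg0 hg1 X _ ν _ s w hw
  rw [lintegral_lintegral_swap]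
  · rw [← lintegral_const_mul' _ _ ENNReal.ofReal_ne_top]
    exact lintegral_mono fun x => h Ω _ Pr inferInstance g hgm hgi hg0 hg1 s fun n => w n x
  · refine Measurable.aemeasurable ?_
    refine Measurable.pow_const ?_ _
    refine Measurable.enorm ?_
    exact Finset.measurable_sum s fun n _ =>
      ((hgm n).comp measurable_fst).mul ((hw n).comp measurable_snd)

end Pool.Agent.K9h71.RC
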