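import Pool.Agent.K9h71.RC.Asm

/-!
# Project RC (helper71): randomisation in the first `d - 1` frequency variables
-/

set_option autoImplicit false

open MeasureTheory Set ProbabilityTheory
open scoped ENNReal FourierTransform RealInnerProductSpace SchwartzMap

namespace Pool.Agent.K9h71.RC

open Pool.Agent.N303.LS
open Pool.Agent.K9h96.LS (hd ls S_ENL)
open Pool.Agent.K9h96.LS.FIN (P ph ph_zero ph_mul ph_tg ph_cut ph_sum ph_cont ph_bd P_bd P_cont
  P_tendsto bumpO wave_meas wintA cs_le sn_le poly)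
open Pool.Agent.K9h96.LS.PWQ (psia_hd_int hd_cont)
open Pool.Agent.K9h71.RD (rmul maj maj_top rN rN_tendsto supp_box mom1 geoV S_LLV S_LPS S_MZ)

lemma rmul_meas {m : ℕ} (φ : 𝓢(E m, ℂ)) (ρ : ℕ) (hρ : ∀ ξ, φ ξ ≠ 0 → ∀ i, |ξ i| ≤ ρ)
    (b : (Fin m → ℤ) → ℕ) (g : ℕ → ℂ) : Measurable (rmul φ b g) := by
  refine measurable_of_tendsto_metrizable (f := fun N => rN φ b g N) (fun N => ?_)
    (tendsto_pi_nhds.2 fun ξ => rN_tendsto φ ρ hρ b g ξ)
  unfold rN
  exact Finset.measurable_sum _ fun k _ =>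
    ((φ.continuous.comp (continuous_id.sub continuous_const)).measurable).const_mul _

theorem main (hL : S_LLV) (hE : S_ENL) (hLPS : S_LPS) (hBP : S_BP) (hMUL : S_MUL) (hMZ : S_MZ)
    (m : ℕ) (hm : 0 < m) (p θ s : ℝ) (hp : 2 ≤ p) (hp4 : p ≤ 4) (hθ : 0 ≤ θ) (hs : θ < s)
    (φ : 𝓢(E m, ℂ)) (hφ : HasCompactSupport (φ : E m → ℂ)) :
    ∃ C : ℝ, 0 < C ∧ ∀ (b : (Fin m → ℤ) → ℕ) (A : ℝ), 0 ≤ A →
    (∀ n R : ℕ, 1 ≤ R → LamSet p (A * (R : ℝ) ^ θ) {k | b k = n ∧ ∀ i, |k i| < R}) →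
    ∀ (Ω : Type) (_ : MeasurableSpace Ω) (Pr : Measure Ω), IsProbabilityMeasure Pr →
    ∀ g : ℕ → Ω → ℂ, (∀ n, Measurable (g n)) → iIndepFun g Pr → (∀ n, ∫ ω, g n ω ∂Pr = 0) →
    (∀ n, ∫⁻ ω, ‖g n ω‖ₑ ^ p ∂Pr ≤ 1) →
    ∀ (u₀ u₁ : 𝓢(E (m + 1), ℂ)),
      ∫⁻ ω, (∫⁻ t in Icc (0 : ℝ) 2, ∫⁻ x : E (m + 1),
        ‖wave (fun ζ => rmul φ b (fun n => g n ω) (hd ζ) * 𝓕 (u₀ : E (m + 1) → ℂ) ζ)
        (fun ζ => rmul φ b (fun n => g n ω) (hd ζ) * 𝓕 (u₁ : E (m + 1) → ℂ) ζ) t x‖ₑ ^ p) ∂Pr ≤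
        ENNReal.ofReal (C * A ^ p) *
          ((∫⁻ x : E (m + 1), ‖inv (fun ξ => bes s ξ * 𝓕 (u₀ : E (m + 1) → ℂ) ξ) x‖ₑ ^ p) +
            ∫⁻ x : E (m + 1),
              ‖inv (fun ξ => bes (s - 1) ξ * 𝓕 (u₁ : E (m + 1) → ℂ) ξ) x‖ₑ ^ p) := by
  classical
  obtain ⟨ρ, hρ⟩ := supp_box φ hφ
  set K : 𝓢(E m, ℂ) := 𝓕⁻ φ with hKd
  have hK : ∀ ξ, 𝓕 (K : E m → ℂ) ξ = φ ξ := fun ξ => by
    rw [← SchwartzMap.fourier_coe, hKd, FourierTransform.fourier_fourierInv_eq]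
  obtain ⟨L, l1, l0⟩ := bumpO (m + 1)
  obtain ⟨C4, A4, hC4, h4⟩ := shellB hL hE m hm p hp hp4 K
  obtain ⟨Cm, hCm, hmz⟩ := mean_sqX hMZ p hp
  have hp0 : 0 < p := by linarith
  set s' : ℝ := (θ + s) / 2 with hs'
  have a1 : θ < s' := by rw [hs']; linarith
  have a2 : s' < s := by rw [hs']; linarith
  have a4 : 0 < s' := by linarith
  obtain ⟨χ, χtg, χ1, hχ⟩ := hLPS (m + 1) s' a4
  obtain ⟨C5, hC5, h5⟩ := hχ p (by linarith)
  obtain ⟨B0, hB0, b0⟩ := (hBP (m + 1) (s - s') p (by linarith)).1 (by linarith)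
  obtain ⟨B1, hB1, b1⟩ := (hBP (m + 1) (1 + (s - s')) p (by linarith)).1 (by linarith)
  choose B2 hB2 b2 using (hBP (m + 1) (1 + (s - s')) p (by linarith)).2 (by linarith)
  obtain ⟨B3, hB3, b3⟩ := (hBP (m + 1) s' p (by linarith)).1 a4
  obtain ⟨B5, hB5, b5⟩ := ph_mul hMUL L p (by linarith)
  set D : ℝ := B0 + B1 + ∑ j, B2 j with hD
  have hsum : 0 ≤ ∑ j, B2 j := Finset.sum_nonneg fun j _ => (hB2 j).le
  have hDpos : 0 < D := by positivity
  set r : ℝ := (2 : ℝ) ^ (-s' * p) with hr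
  have hr0 : 0 < r := by positivity
  set C7 : ℝ := B5 * (B3 + C5 * r⁻¹) with hC7
  have hC70 : 0 < C7 := by positivity
  set q : ℝ := (2 : ℝ) ^ ((θ - s') / 2) with hq
  have hq0 : 0 < q := by positivity
  have hq1 : q < 1 := Real.rpow_lt_one_of_one_lt_of_neg (by norm_num) (by linarith)
  have hqp0 : 0 < q ^ p := by positivity
  have hqp1 : q ^ p < 1 := Real.rpow_lt_one hq0.le hq1 hp0
  obtain ⟨M, hM, hMc⟩ := poly A4 (q ^ p) hqp0 hqp1
  set G0 : ℝ := Cm * (C4 * ((m : ℝ) + 3) * C7 * D * (2 : ℝ) ^ (θ * p * ((1 : ℝ) + ρ)) * M) with hG0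
  have hG00 : 0 < G0 := by positivity
  have h1q : 0 < 1 - q := by linarith
  refine ⟨G0 / (1 - q) ^ p, by positivity, ?_⟩
  intro b A hA hS Ω _ Pr _ g hgm hgi hg0 hg1 u₀ u₁
  obtain ⟨F₀, F₁, hh, hF0x, hF1x, hh0, hh1, hhj, e0, e1⟩ := data s s' u₀ u₁
  set X := ∫⁻ x : E (m + 1), ‖F₀ x‖ₑ ^ p with hX
  set Z := ∫⁻ x : E (m + 1), ‖F₁ x‖ₑ ^ p with hZ
  -- the norms of the generators
  have hhb : ∀ k, ∫⁻ x : E (m + 1), ‖hh k x‖ₑ ^ p ≤ ENNReal.ofReal D * (X + Z) := by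
    intro k
    have hB2le : ∀ j, B2 j ≤ ∑ j, B2 j := fun j =>
      Finset.single_le_sum (f := B2) (fun i _ => (hB2 i).le) (Finset.mem_univ j)
    match k with
    | Sum.inr true =>
      simp only [hh0]
      refine (b0 F₀).trans ?_
      gcongr
      · rw [hD]; linarith
      · exact le_self_add
    | Sum.inr false =>
      simp only [hh1]
      refine (b1 F₁).trans ?_
      gcongr
      · rw [hD]; linarith
      · exact le_add_self
    | Sum.inl j =>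
      simp only [hhj]
      refine (b2 j (-F₁)).trans ?_
      have e : ∫⁻ x : E (m + 1), ‖(-F₁ : 𝓢(E (m + 1), ℂ)) x‖ₑ ^ p = Z := by
        rw [hZ]
        refine lintegral_congr fun x => ?_
        rw [neg_apply, enorm_neg]
      rw [e]
      gcongr
      · rw [hD]; linarith [hB2le j]
      · exact le_add_self
  -- the localised generators
  have hpg : ∀ c : ℕ, ∃ pg : Fin (m + 1) ⊕ Bool → 𝓢(E (m + 1), ℂ),
      (∀ k ξ, 𝓕 (pg k : E (m + 1) → ℂ) ξ =
        ph L c ξ * (bes (-s') ξ * 𝓕 (hh k : E (m + 1) → ℂ) ξ)) ∧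
      ∀ k, ∫⁻ x : E (m + 1), ‖pg k x‖ₑ ^ p ≤ ENNReal.ofReal (C7 * r ^ c) *
        ∫⁻ x : E (m + 1), ‖hh k x‖ₑ ^ p := by
    intro c
    match c with
    | 0 =>
      choose pg p1 p2 using fun k => mult (bes (-s')) (bes_tg _) (hh k)
      choose pf f1 f2 using fun k => mult (ph L 0) (ph_tg L 0) (pg k)
      refine ⟨pf, fun k ξ => ?_, fun k => ?_⟩
      · rw [f1, p1]
      · simp only [f2]
        refine (b5 0 (pg k)).trans ?_
        have hb3 := b3 (hh k)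
        simp only [← p2] at hb3
        refine (mul_le_mul_right hb3 _).trans ?_
        rw [← mul_assoc, ← ENNReal.ofReal_mul hB5.le]
        refine mul_le_mul_left (ENNReal.ofReal_le_ofReal ?_) _
        rw [pow_zero, mul_one, hC7]
        have : 0 ≤ C5 * r⁻¹ := by positivity
        gcongr
        linarith
    | k' + 1 =>
      choose pg p1 p2 using fun k => mult (fun ξ => χ k' ξ * bes (-s') ξ)
        ((χtg k').mul (bes_tg _)) (hh k)
      choose pf f1 f2 using fun k => mult (ph L (k' + 1)) (ph_tg L (k' + 1)) (pg k)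
      refine ⟨pf, fun k ξ => ?_, fun k => ?_⟩
      · rw [f1, p1]
        have hc := ph_cut L l1 l0 χ χ1 (k' + 1) ξ
        simp only [cut] at hc
        calc ph L (k' + 1) ξ * (χ k' ξ * bes (-s') ξ * 𝓕 (hh k : E (m + 1) → ℂ) ξ) =
            (ph L (k' + 1) ξ * χ k' ξ) * (bes (-s') ξ * 𝓕 (hh k : E (m + 1) → ℂ) ξ) := by ring
          _ = _ := by rw [hc]
      · simp only [f2]
        refine (b5 (k' + 1) (pg k)).trans ?_
        refine (mul_le_mul_right (h5 k' (hh k) (pg k) fun ξ => by rw [p1]; ring) _).trans ?_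
        rw [← mul_assoc, ← ENNReal.ofReal_mul hB5.le]
        refine mul_le_mul_left (ENNReal.ofReal_le_ofReal ?_) _
        rw [hC7, pow_succ]
        have e : B5 * (B3 + C5 * r⁻¹) * (r ^ k' * r) =
            B5 * (B3 * (r ^ k' * r)) + B5 * (C5 * r ^ k') := by
          field_simp
        rw [e]
        have : 0 ≤ B5 * (B3 * (r ^ k' * r)) := by positivity
        linarith
  choose pg pg1 pg2 using hpg
  -- the shells
  have hFc : ∀ f : 𝓢(E (m + 1), ℂ), Measurable (𝓕 (f : E (m + 1) → ℂ)) := fun f => by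
    have h := (𝓕 f : 𝓢(E (m + 1), ℂ)).continuous
    rw [SchwartzMap.fourier_coe] at h
    exact h.measurable
  have hpi : ∀ c (f : 𝓢(E (m + 1), ℂ)), Integrable fun ξ => ph L c ξ * 𝓕 (f : E (m + 1) → ℂ) ξ :=
    fun c f => (four_int f).bdd_mul (ph_cont L c).aestronglyMeasurable
      (Filter.Eventually.of_forall (ph_bd L c))
  obtain ⟨Rc, hRc⟩ : ∃ Rc : ℕ → ℕ, Rc = fun c => 2 ^ (c + 1 + ρ) := ⟨_, rfl⟩
  have hψm : ∀ c n, Measurable fun ζ : E (m + 1) => psia K (blk b (Rc c) n) (fun _ => 1) (hd ζ) :=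
    fun c n => ((psia_cont K _ _).comp hd_cont).measurable
  set v : ℕ → ℕ → ℝ × E (m + 1) → ℂ := fun c n z => wave
    (fun ζ => psia K (blk b (Rc c) n) (fun _ => 1) (hd ζ) *
      (ph L c ζ * 𝓕 (u₀ : E (m + 1) → ℂ) ζ))
    (fun ζ => psia K (blk b (Rc c) n) (fun _ => 1) (hd ζ) *
      (ph L c ζ * 𝓕 (u₁ : E (m + 1) → ℂ) ζ)) z.1 z.2 with hv
  have hvm : ∀ c n, Measurable (v c n) := fun c n =>
    wave_meas _ _ ((hψm c n).mul ((ph_cont L c).measurable.mul (hFc u₀)))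
      ((hψm c n).mul ((ph_cont L c).measurable.mul (hFc u₁)))
  obtain ⟨μ, hμ⟩ : ∃ μ : Measure (ℝ × E (m + 1)),
      μ = (volume.restrict (Icc (0 : ℝ) 2)).prod volume := ⟨_, rfl⟩
  have hμs : SFinite μ := by rw [hμ]; infer_instance
  have hprod : ∀ f : ℝ × E (m + 1) → ℝ≥0∞, Measurable f →
      ∫⁻ z, f z ∂μ = ∫⁻ t in Icc (0 : ℝ) 2, ∫⁻ x : E (m + 1), f (t, x) := by
    intro f hf
    rw [hμ, lintegral_prod _ hf.aemeasurable]
  set w : ℕ → Ω × (ℝ × E (m + 1)) → ℂ := fun c z =>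
    ∑ n ∈ (cube m (Rc c)).image b, g n z.1 * v c n z.2 with hw
  have hwm : ∀ c, Measurable (w c) := fun c =>
    Finset.measurable_sum _ fun n _ =>
      ((hgm n).comp measurable_fst).mul ((hvm c n).comp measurable_snd)
  have hwb : ∀ c, ∫⁻ z, ‖w c z‖ₑ ^ p ∂(Pr.prod μ) ≤
      ENNReal.ofReal ((G0 ^ (1 / p) * A) ^ p * (q ^ p) ^ c) * (X + Z) := by
    intro c
    rw [lintegral_prod _ (((hwm c).enorm.pow_const p).aemeasurable)]
    refine (hmz Ω _ Pr inferInstance g hgm hgi hg0 hg1 (ℝ × E (m + 1)) _ μ hμs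
      ((cube m (Rc c)).image b) (v c) (hvm c)).trans ?_
    rw [hprod _ ((Finset.measurable_sum _ fun n _ =>
      ((hvm c n).enorm).pow_const (2 : ℝ)).pow_const (p / 2))]
    set f₁ : 𝓢(E (m + 1), ℂ) := pg c (Sum.inr false) + ∑ j, LineDeriv.lineDerivOp
      (EuclideanSpace.single j (1 : ℝ)) (pg c (Sum.inl j)) with hf₁
    have hsl := sum_line (pg c (Sum.inr false)) (fun j => pg c (Sum.inl j))
    have hLam : ∀ n, Lam p (A * ((Rc c : ℕ) : ℝ) ^ θ) (blk b (Rc c) n) (fun _ => 1) := by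
      intro n y
      have h := hS n (Rc c) (by rw [hRc]; exact Nat.one_le_two_pow) (blk b (Rc c) n) (by
        intro k hk
        have hk' : k ∈ blk b (Rc c) n := hk
        unfold blk at hk'
        rw [Finset.mem_filter, mem_cube] at hk'
        exact ⟨hk'.2, hk'.1⟩) y
      simpa only [one_mul] using h
    have hgen : ∀ k, gen (pg c (Sum.inr true)) (pg c (Sum.inr false))
        (fun j => pg c (Sum.inl j)) k = pg c k := by
      intro k
      match k with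
      | Sum.inl j => rfl
      | Sum.inr true => rfl
      | Sum.inr false => rfl
    have hb := h4 (c + 1) (pg c (Sum.inr true)) f₁ (pg c (Sum.inr false))
      (fun j => pg c (Sum.inl j)) (by
        intro k ζ hζ
        rw [hgen, pg1, ph_zero L l0 c ζ, zero_mul]
        refine ⟨Fin.last m, ?_⟩
        have : (2 : ℝ) ^ (c + 1) < |ζ (Fin.last m)| := hζ
        rw [pow_succ] at this
        have h6 : (0 : ℝ) < 2 ^ c := by positivity
        nlinarith) (fourier_gen f₁ (pg c (Sum.inr false)) (fun j => pg c (Sum.inl j)) hsl)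
      ((cube m (Rc c)).image b) (blk b (Rc c)) (fun _ => 1) _ (blk_disj b (Rc c))
      (by positivity) hLam
    have ef0 : ∀ n, (fun ζ => psia K (blk b (Rc c) n) (fun _ => 1) (hd ζ) *
        𝓕 (pg c (Sum.inr true) : E (m + 1) → ℂ) ζ) =
        fun ζ => psia K (blk b (Rc c) n) (fun _ => 1) (hd ζ) *
          (ph L c ζ * 𝓕 (u₀ : E (m + 1) → ℂ) ζ) := by
      intro n
      funext ζ
      rw [pg1, ← e0]
    have ef1 : ∀ n, (fun ζ => psia K (blk b (Rc c) n) (fun _ => 1) (hd ζ) *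
        𝓕 (f₁ : E (m + 1) → ℂ) ζ) =
        fun ζ => psia K (blk b (Rc c) n) (fun _ => 1) (hd ζ) *
          (ph L c ζ * 𝓕 (u₁ : E (m + 1) → ℂ) ζ) := by
      intro n
      funext ζ
      have e2 : 𝓕 (f₁ : E (m + 1) → ℂ) ζ = ph L c ζ * 𝓕 (u₁ : E (m + 1) → ℂ) ζ := by
        rw [fourier_gen f₁ (pg c (Sum.inr false)) (fun j => pg c (Sum.inl j)) hsl ζ]
        simp only [pg1]
        rw [e1 ζ, mul_add, Finset.mul_sum]
        congr 1
        refine Finset.sum_congr rfl fun j _ => ?_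
        ring
      rw [e2]
    simp only [ef0, ef1, hgen] at hb
    have hone : ∀ k, ∫⁻ x : E (m + 1), ‖pg c k x‖ₑ ^ p ≤
        ENNReal.ofReal (C7 * r ^ c * D) * (X + Z) := by
      intro k
      refine (pg2 c k).trans ?_
      calc ENNReal.ofReal (C7 * r ^ c) * ∫⁻ x : E (m + 1), ‖hh k x‖ₑ ^ p ≤
          ENNReal.ofReal (C7 * r ^ c) * (ENNReal.ofReal D * (X + Z)) := by
            gcongr
            exact hhb k
        _ = _ := by
          rw [← mul_assoc, ← ENNReal.ofReal_mul (by positivity)]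
    have hcard : (Finset.univ : Finset (Fin (m + 1) ⊕ Bool)).card = m + 3 := by simp
    refine (mul_le_mul_right hb _).trans ?_
    calc ENNReal.ofReal Cm * (ENNReal.ofReal (C4 * (((c + 1 : ℕ) : ℝ) + 1) ^ A4 *
          (A * ((Rc c : ℕ) : ℝ) ^ θ) ^ p) *
          ∑ k, ∫⁻ x : E (m + 1), ‖pg c k x‖ₑ ^ p) ≤
        ENNReal.ofReal Cm * (ENNReal.ofReal (C4 * (((c + 1 : ℕ) : ℝ) + 1) ^ A4 *
          (A * ((Rc c : ℕ) : ℝ) ^ θ) ^ p) *
          ∑ _k : Fin (m + 1) ⊕ Bool, ENNReal.ofReal (C7 * r ^ c * D) * (X + Z)) := by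
          gcongr
          exact hone _
      _ = ENNReal.ofReal Cm * (ENNReal.ofReal (C4 * (((c + 1 : ℕ) : ℝ) + 1) ^ A4 *
          (A * ((Rc c : ℕ) : ℝ) ^ θ) ^ p) *
          (ENNReal.ofReal ((m : ℝ) + 3) * (ENNReal.ofReal (C7 * r ^ c * D) * (X + Z)))) := by
          congr 2
          rw [Finset.sum_const, hcard, nsmul_eq_mul,
            ENNReal.ofReal_add (by positivity) (by norm_num), ENNReal.ofReal_natCast,
            ENNReal.ofReal_ofNat]
          push_cast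
          ring
      _ ≤ _ := by
          rw [← mul_assoc, ← mul_assoc, ← mul_assoc, ← ENNReal.ofReal_mul (by positivity),
            ← ENNReal.ofReal_mul (by positivity), ← ENNReal.ofReal_mul (by positivity)]
          refine mul_le_mul_left (ENNReal.ofReal_le_ofReal ?_) _
          have z1 : (A * ((Rc c : ℕ) : ℝ) ^ θ) ^ p =
              A ^ p * ((2 : ℝ) ^ (θ * p * ((1 : ℝ) + ρ)) * ((2 : ℝ) ^ (θ * p)) ^ c) := by
            rw [Real.mul_rpow hA (by positivity), hRc]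
            congr 1
            push_cast
            rw [← Real.rpow_natCast 2 (c + 1 + ρ), ← Real.rpow_mul (by positivity),
              ← Real.rpow_mul (by positivity), ← Real.rpow_natCast ((2 : ℝ) ^ (θ * p)) c,
              ← Real.rpow_mul (by positivity), ← Real.rpow_add (by positivity)]
            congr 1
            push_cast
            ring
          have z2 : (G0 ^ (1 / p) * A) ^ p = G0 * A ^ p := by
            rw [Real.mul_rpow (by positivity) hA, ← Real.rpow_mul hG00.le,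
              one_div_mul_cancel hp0.ne', Real.rpow_one]
          have z3 : (q ^ p) ^ c * (q ^ p) ^ c = ((2 : ℝ) ^ (θ * p)) ^ c * r ^ c := by
            rw [← mul_pow, ← mul_pow]
            congr 1
            rw [hq, hr, ← Real.rpow_mul (by norm_num), ← Real.rpow_add (by norm_num),
              ← Real.rpow_add (by norm_num)]
            congr 1
            ring
          have z4 : (((c + 1 : ℕ) : ℝ) + 1) = (c : ℝ) + 2 := by push_cast; ring
          rw [z1, z2, z4, hG0]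
          have z5 := hMc c
          obtain ⟨T, hT⟩ : ∃ T : ℝ, T = (2 : ℝ) ^ (θ * p * ((1 : ℝ) + ρ)) := ⟨_, rfl⟩
          have hT0 : 0 < T := by rw [hT]; positivity
          rw [← hT]
          calc Cm * (C4 * ((c : ℝ) + 2) ^ A4 * (A ^ p * (T * ((2 : ℝ) ^ (θ * p)) ^ c))) *
                ((m : ℝ) + 3) * (C7 * r ^ c * D) =
              (Cm * C4 * ((m : ℝ) + 3) * C7 * D * T * A ^ p) *
                (((c : ℝ) + 2) ^ A4 * (((2 : ℝ) ^ (θ * p)) ^ c * r ^ c)) := by ring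
            _ = (Cm * C4 * ((m : ℝ) + 3) * C7 * D * T * A ^ p) *
                ((((c : ℝ) + 2) ^ A4 * (q ^ p) ^ c) * (q ^ p) ^ c) := by rw [← z3]; ring
            _ ≤ (Cm * C4 * ((m : ℝ) + 3) * C7 * D * T * A ^ p) *
                (M * (q ^ p) ^ c) := by gcongr
            _ = _ := by ring
  have hN := fun N => geoV (Pr.prod μ) p (by linarith) w
    (fun c => (hwm c).aestronglyMeasurable) (G0 ^ (1 / p) * A) q (by positivity) hq0.le hq1
    (X + Z) hwb N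
  -- the partial sums
  set wN : ℕ → Ω × (ℝ × E (m + 1)) → ℂ := fun N z => ∑ c ∈ Finset.range (N + 1), w c z with hwN
  have hwNm : ∀ N, Measurable (wN N) := fun N => Finset.measurable_sum _ fun c _ => hwm c
  have hid : ∀ N ω ζ (z : ℂ), rmul φ b (fun n => g n ω) (hd ζ) * (P L N ζ * z) =
      ∑ c ∈ Finset.range (N + 1), ∑ n ∈ (cube m (Rc c)).image b,
        g n ω * (psia K (blk b (Rc c) n) (fun _ => 1) (hd ζ) * (ph L c ζ * z)) := by
    intro N ω ζ z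
    rw [← ph_sum, Finset.sum_mul, Finset.mul_sum]
    refine Finset.sum_congr rfl fun c _ => ?_
    rw [hRc]
    exact (rmul_ph K φ hK ρ hρ L l0 b (fun n => g n ω) c ζ z).symm
  have hri : ∀ N ω (f : 𝓢(E (m + 1), ℂ)), Integrable fun ζ =>
      rmul φ b (fun n => g n ω) (hd ζ) * (P L N ζ * 𝓕 (f : E (m + 1) → ℂ) ζ) := by
    intro N ω f
    simp only [hid]
    exact integrable_finset_sum _ fun c _ => integrable_finset_sum _ fun n _ =>
      (psia_hd_int K _ _ (hpi c f)).const_mul _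
  have hvi : ∀ (t : ℝ) c n, Integrable fun ζ =>
      cs t ζ * (psia K (blk b (Rc c) n) (fun _ => 1) (hd ζ) *
        (ph L c ζ * 𝓕 (u₀ : E (m + 1) → ℂ) ζ)) +
      sn t ζ * (psia K (blk b (Rc c) n) (fun _ => 1) (hd ζ) *
        (ph L c ζ * 𝓕 (u₁ : E (m + 1) → ℂ) ζ)) := fun t c n =>
    wintA t _ _ (psia_hd_int K _ _ (hpi c u₀)) (psia_hd_int K _ _ (hpi c u₁))
  have hPs : ∀ N ω t x, wN N (ω, (t, x)) =
      inv (fun ζ => cs t ζ * (rmul φ b (fun n => g n ω) (hd ζ) *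
          (P L N ζ * 𝓕 (u₀ : E (m + 1) → ℂ) ζ)) +
        sn t ζ * (rmul φ b (fun n => g n ω) (hd ζ) *
          (P L N ζ * 𝓕 (u₁ : E (m + 1) → ℂ) ζ))) x := by
    intro N ω t x
    have e : (fun ζ => cs t ζ * (rmul φ b (fun n => g n ω) (hd ζ) *
          (P L N ζ * 𝓕 (u₀ : E (m + 1) → ℂ) ζ)) +
        sn t ζ * (rmul φ b (fun n => g n ω) (hd ζ) *
          (P L N ζ * 𝓕 (u₁ : E (m + 1) → ℂ) ζ))) =
        fun ζ => ∑ c ∈ Finset.range (N + 1), ∑ n ∈ (cube m (Rc c)).image b, g n ω *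
        (cs t ζ * (psia K (blk b (Rc c) n) (fun _ => 1) (hd ζ) *
          (ph L c ζ * 𝓕 (u₀ : E (m + 1) → ℂ) ζ)) +
        sn t ζ * (psia K (blk b (Rc c) n) (fun _ => 1) (hd ζ) *
          (ph L c ζ * 𝓕 (u₁ : E (m + 1) → ℂ) ζ))) := by
      funext ζ
      rw [hid, hid, Finset.mul_sum, Finset.mul_sum, ← Finset.sum_add_distrib]
      refine Finset.sum_congr rfl fun c _ => ?_
      rw [Finset.mul_sum, Finset.mul_sum, ← Finset.sum_add_distrib]
      refine Finset.sum_congr rfl fun n _ => ?_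
      ring
    rw [e, inv_sum _ _ fun c _ => integrable_finset_sum _ fun n _ => (hvi t c n).const_mul _]
    simp only [hwN, hw]
    refine Finset.sum_congr rfl fun c _ => ?_
    rw [inv_sum _ _ fun n _ => (hvi t c n).const_mul _]
    refine Finset.sum_congr rfl fun n _ => ?_
    simp only [hv]
    unfold wave inv
    rw [← integral_const_mul]
    refine integral_congr_ae (Filter.Eventually.of_forall fun ξ => ?_)
    show g n ω * (_ * _) = _ * (g n ω * _)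
    ring
  -- the limit
  have hmajm : ∀ ω, Measurable fun ζ : E (m + 1) => maj φ b (fun n => g n ω) (hd ζ) := by
    intro ω
    have h : Measurable fun ξ : E m => maj φ b (fun n => g n ω) ξ := by
      unfold maj
      refine Measurable.ennreal_tsum fun k => ?_
      refine Measurable.const_mul ?_ _
      exact (φ.continuous.comp (continuous_id.sub continuous_const)).measurable.enorm
    exact h.comp hd_cont.measurable
  have hH1 : ∀ f : 𝓢(E (m + 1), ℂ), ∀ᵐ ω ∂Pr, ∫⁻ ζ : E (m + 1),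
      maj φ b (fun n => g n ω) (hd ζ) * ‖𝓕 (f : E (m + 1) → ℂ) ζ‖ₑ ≠ ⊤ := fun f =>
    maj_aeX φ ρ hρ b Pr g hgm (fun n => mom1 Pr p hp _ (hgm n) (hg1 n)) volume hd
      hd_cont.measurable _ (hFc f).enorm (four_int f).2.ne
  have hmi : ∀ ω (f : 𝓢(E (m + 1), ℂ)), ∫⁻ ζ, maj φ b (fun n => g n ω) (hd ζ) *
      ‖𝓕 (f : E (m + 1) → ℂ) ζ‖ₑ ≠ ⊤ → Integrable fun ζ =>
      (maj φ b (fun n => g n ω) (hd ζ)).toReal * ‖𝓕 (f : E (m + 1) → ℂ) ζ‖ := by
    intro ω f hf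
    have h1 := integrable_toReal_of_lintegral_ne_top
      (((hmajm ω).mul (hFc f).enorm).aemeasurable) hf
    refine h1.congr (Filter.Eventually.of_forall fun ξ => ?_)
    show (maj φ b (fun n => g n ω) (hd ξ) * ‖𝓕 (f : E (m + 1) → ℂ) ξ‖ₑ).toReal = _
    rw [ENNReal.toReal_mul, toReal_enorm]
  obtain ⟨IL, hIL⟩ : ∃ IL : ℝ, IL = ∫ x, ‖L x‖ := ⟨_, rfl⟩
  have hbd : ∀ ω (f : 𝓢(E (m + 1), ℂ)) N ζ, ‖rmul φ b (fun n => g n ω) (hd ζ) *
      (P L N ζ * 𝓕 (f : E (m + 1) → ℂ) ζ)‖ ≤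
      IL * ((maj φ b (fun n => g n ω) (hd ζ)).toReal * ‖𝓕 (f : E (m + 1) → ℂ) ζ‖) := by
    intro ω f N ζ
    rw [norm_mul, norm_mul]
    have h1 := rmul_maj φ ρ hρ b (fun n => g n ω) (hd ζ)
    have h2 := P_bd L N ζ
    rw [← hIL] at h2
    have h3 : 0 ≤ IL := (norm_nonneg _).trans h2
    calc ‖rmul φ b (fun n => g n ω) (hd ζ)‖ * (‖P L N ζ‖ * ‖𝓕 (f : E (m + 1) → ℂ) ζ‖) ≤
        (maj φ b (fun n => g n ω) (hd ζ)).toReal * (IL * ‖𝓕 (f : E (m + 1) → ℂ) ζ‖) := by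
          gcongr
      _ = _ := by ring
  have hlim : ∀ᵐ ω ∂Pr, ∀ t x, Filter.Tendsto (fun N => wN N (ω, (t, x))) Filter.atTop
      (nhds (wave (fun ζ => rmul φ b (fun n => g n ω) (hd ζ) * 𝓕 (u₀ : E (m + 1) → ℂ) ζ)
        (fun ζ => rmul φ b (fun n => g n ω) (hd ζ) * 𝓕 (u₁ : E (m + 1) → ℂ) ζ) t x)) := by
    filter_upwards [hH1 u₀, hH1 u₁] with ω k0 k1 t x
    simp only [hPs]
    unfold wave inv
    refine tendsto_integral_of_dominated_convergence
      (fun ζ => 1 * (IL * ((maj φ b (fun n => g n ω) (hd ζ)).toReal *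
          ‖𝓕 (u₀ : E (m + 1) → ℂ) ζ‖)) +
        |t| * (IL * ((maj φ b (fun n => g n ω) (hd ζ)).toReal *
          ‖𝓕 (u₁ : E (m + 1) → ℂ) ζ‖))) ?_ ?_ ?_ ?_
    · intro N
      refine AEStronglyMeasurable.mul ?_ (wintA t _ _ (hri N ω u₀) (hri N ω u₁)).1
      refine Continuous.aestronglyMeasurable ?_
      fun_prop
    · exact (((hmi ω u₀ k0).const_mul IL).const_mul 1).add
        (((hmi ω u₁ k1).const_mul IL).const_mul |t|)
    · intro N
      refine Filter.Eventually.of_forall fun ξ => ?_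
      rw [norm_mul, Complex.norm_exp_ofReal_mul_I, one_mul]
      refine (norm_add_le _ _).trans (add_le_add ?_ ?_)
      · rw [norm_mul]
        exact mul_le_mul (cs_le t ξ) (hbd ω u₀ N ξ) (norm_nonneg _) (by norm_num)
      · rw [norm_mul]
        exact mul_le_mul (sn_le t ξ) (hbd ω u₁ N ξ) (norm_nonneg _) (abs_nonneg _)
    · refine Filter.Eventually.of_forall fun ξ => ?_
      have h2 := P_tendsto L l1 ξ
      have h3 := (h2.mul_const (𝓕 (u₀ : E (m + 1) → ℂ) ξ)).const_mul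
        (rmul φ b (fun n => g n ω) (hd ξ))
      have h4 := (h2.mul_const (𝓕 (u₁ : E (m + 1) → ℂ) ξ)).const_mul
        (rmul φ b (fun n => g n ω) (hd ξ))
      rw [one_mul] at h3 h4
      exact (((h3.const_mul _).add (h4.const_mul _)).const_mul _)
  have hWm : ∀ ω, Measurable fun z : ℝ × E (m + 1) =>
      wave (fun ζ => rmul φ b (fun n => g n ω) (hd ζ) * 𝓕 (u₀ : E (m + 1) → ℂ) ζ)
        (fun ζ => rmul φ b (fun n => g n ω) (hd ζ) * 𝓕 (u₁ : E (m + 1) → ℂ) ζ) z.1 z.2 := by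
    intro ω
    have h := (rmul_meas φ ρ hρ b (fun n => g n ω)).comp hd_cont.measurable
    exact wave_meas _ _ (h.mul (hFc u₀)) (h.mul (hFc u₁))
  have hpt : ∀ᵐ ω ∂Pr, ∫⁻ z, ‖wave (fun ζ => rmul φ b (fun n => g n ω) (hd ζ) *
        𝓕 (u₀ : E (m + 1) → ℂ) ζ)
        (fun ζ => rmul φ b (fun n => g n ω) (hd ζ) * 𝓕 (u₁ : E (m + 1) → ℂ) ζ) z.1 z.2‖ₑ ^ p ∂μ ≤
      Filter.liminf (fun N => ∫⁻ z, ‖wN N (ω, z)‖ₑ ^ p ∂μ) Filter.atTop := by
    filter_upwards [hlim] with ω hω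
    have e : ∀ z : ℝ × E (m + 1), ‖wave (fun ζ => rmul φ b (fun n => g n ω) (hd ζ) *
        𝓕 (u₀ : E (m + 1) → ℂ) ζ)
        (fun ζ => rmul φ b (fun n => g n ω) (hd ζ) * 𝓕 (u₁ : E (m + 1) → ℂ) ζ) z.1 z.2‖ₑ ^ p =
        Filter.liminf (fun N => ‖wN N (ω, z)‖ₑ ^ p) Filter.atTop := by
      intro z
      have h1 := ((continuous_enorm.tendsto _).comp (hω z.1 z.2))
      have h2 := (ENNReal.continuous_rpow_const (y := p)).tendsto
        (‖wave (fun ζ => rmul φ b (fun n => g n ω) (hd ζ) *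
        𝓕 (u₀ : E (m + 1) → ℂ) ζ)
        (fun ζ => rmul φ b (fun n => g n ω) (hd ζ) * 𝓕 (u₁ : E (m + 1) → ℂ) ζ) z.1 z.2‖ₑ)
      exact ((h2.comp h1).liminf_eq).symm
    rw [lintegral_congr e]
    exact lintegral_liminf_le fun N =>
      (((hwNm N).comp (measurable_const.prodMk measurable_id)).enorm.pow_const p)
  have hswap : ∀ ω, ∫⁻ t in Icc (0 : ℝ) 2, ∫⁻ x : E (m + 1),
        ‖wave (fun ζ => rmul φ b (fun n => g n ω) (hd ζ) * 𝓕 (u₀ : E (m + 1) → ℂ) ζ)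
        (fun ζ => rmul φ b (fun n => g n ω) (hd ζ) * 𝓕 (u₁ : E (m + 1) → ℂ) ζ) t x‖ₑ ^ p =
      ∫⁻ z, ‖wave (fun ζ => rmul φ b (fun n => g n ω) (hd ζ) *
        𝓕 (u₀ : E (m + 1) → ℂ) ζ)
        (fun ζ => rmul φ b (fun n => g n ω) (hd ζ) * 𝓕 (u₁ : E (m + 1) → ℂ) ζ) z.1 z.2‖ₑ ^ p ∂μ :=
    fun ω => (hprod _ ((hWm ω).enorm.pow_const p)).symm
  rw [lintegral_congr hswap]
  refine (lintegral_mono_ae hpt).trans ?_
  refine (lintegral_liminf_le fun N => Measurable.lintegral_prod_right'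
    (f := fun z : Ω × (ℝ × E (m + 1)) => ‖wN N z‖ₑ ^ p) ((hwNm N).enorm.pow_const p)).trans ?_
  have hfin : ∀ N, ∫⁻ ω, (∫⁻ z, ‖wN N (ω, z)‖ₑ ^ p ∂μ) ∂Pr ≤
      ENNReal.ofReal ((G0 ^ (1 / p) * A / (1 - q)) ^ p) * (X + Z) := by
    intro N
    rw [← lintegral_prod (fun z : Ω × (ℝ × E (m + 1)) => ‖wN N z‖ₑ ^ p)
      (((hwNm N).enorm.pow_const p).aemeasurable)]
    exact hN (N + 1)
  refine (Filter.liminf_le_liminf (Filter.Eventually.of_forall hfin)).trans ?_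
  rw [Filter.liminf_const]
  simp only [← hF0x, ← hF1x]
  refine le_of_eq ?_
  congr 2
  rw [Real.div_rpow (by positivity) h1q.le, Real.mul_rpow (by positivity) hA,
    ← Real.rpow_mul hG00.le, one_div_mul_cancel hp0.ne', Real.rpow_one]
  ring

end Pool.Agent.K9h71.RC
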