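import Pool.Agent.K9h71.RD.Stm
import Pool.Agent.K9h96.LS.PWQ

/-!
# Project RC (helper71): randomisation in the first `d - 1` frequency variables.
Block version of the local smoothing estimate (PW).
-/

set_option autoImplicit false

open MeasureTheory Set
open scoped ENNReal FourierTransform RealInnerProductSpace SchwartzMap

namespace Pool.Agent.K9h71.RC

open Pool.Agent.N303.LS (E inv sym nrg psia Lam sym_int inv_cont psia_int vol_cu)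
open Pool.Agent.K9h96.LS (hd ls ev S_ENL jn)
open Pool.Agent.K9h96.LS.LOC (integ_jn inv_jn lint_jn hd_jn)
open Pool.Agent.N492.LS (cu avg)
open Pool.Agent.K9h96.LS.PWQ
open Pool.Agent.K9h71.RD (S_LLV)

theorem pwb (hL : S_LLV) (hE : S_ENL) (m : ℕ) (p : ℝ) (hm : 0 < m) (hp : 2 ≤ p) (hp4 : p ≤ 4)
    (K : 𝓢(E m, ℂ)) : ∃ (C : ℝ) (A : ℕ), 0 < C ∧
    ∀ (n : ℕ) (g : 𝓢(E (m + 1), ℂ)),
    (∀ ζ, (2 : ℝ) ^ n < |ls ζ| → 𝓕 (g : E (m + 1) → ℂ) ζ = 0) →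
    ∀ (s : Finset ℕ) (S : ℕ → Finset (Fin m → ℤ)) (a : (Fin m → ℤ) → ℂ) (Λ : ℝ),
    (∀ i j, i ≠ j → Disjoint (S i) (S j)) → 0 ≤ Λ → (∀ i, Lam p Λ (S i) a) →
    ∀ k : Fin (m + 1) ⊕ Bool,
      ∫⁻ t in Icc (0 : ℝ) 2, ∫⁻ z : E (m + 1),
        (∑ i ∈ s, ‖inv (fun ζ => psia K (S i) a (hd ζ) *
          (sym k t ζ * 𝓕 (g : E (m + 1) → ℂ) ζ)) z‖ₑ ^ (2 : ℝ)) ^ (p / 2) ≤
      ENNReal.ofReal (C * ((n : ℝ) + 1) ^ A * Λ ^ p) * ∫⁻ z : E (m + 1), ‖g z‖ₑ ^ p := by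
  obtain ⟨C1, hC1, h1⟩ := hL m (m + 1) p hp K
  obtain ⟨C2, A, hC2, h2⟩ := hE m p hm hp hp4
  refine ⟨C2 * C1, A, by positivity, ?_⟩
  intro n g hg s S a Λ hS hΛ hLam k
  have hΛp : 0 ≤ Λ ^ p := Real.rpow_nonneg hΛ p
  have h3 := h2 n g hg k
  have key : ∀ t ∈ Icc (0 : ℝ) 2, ∫⁻ z : E (m + 1),
      (∑ i ∈ s, ‖inv (fun ζ => psia K (S i) a (hd ζ) *
        (sym k t ζ * 𝓕 (g : E (m + 1) → ℂ) ζ)) z‖ₑ ^ (2 : ℝ)) ^ (p / 2) ≤
      ENNReal.ofReal (C1 * Λ ^ p) *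
        ∫⁻ x : ℝ, ∫⁻ w : E m, nrg (m + 1) (fun y => ev k g t y x) w ^ (p / 2) := by
    intro t ht
    have hΦ : Integrable fun ζ : E (m + 1) => sym k t ζ * 𝓕 (g : E (m + 1) → ℂ) ζ :=
      sym_int k t ht.1 ht.2 g
    have hΨ := fun i => psia_hd_int K (S i) a hΦ
    rw [lint_jn _ ((Finset.measurable_sum s fun i _ =>
        (inv_cont _ (hΨ i)).measurable.enorm.pow_const (2 : ℝ)).pow_const (p / 2)),
      ← lintegral_const_mul' _ _ ENNReal.ofReal_ne_top]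
    refine lintegral_mono fun x => ?_
    rw [← lintegral_const_mul' _ _ ENNReal.ofReal_ne_top]
    have hF := FF_int hΦ x
    have hms : Measurable fun y : E m => (∑ i ∈ s, ‖inv (fun η => psia K (S i) a η *
        FF (fun ζ : E (m + 1) => sym k t ζ * 𝓕 (g : E (m + 1) → ℂ) ζ) x η) y‖ₑ ^ (2 : ℝ)) ^
          (p / 2) :=
      (Finset.measurable_sum s fun i _ =>
        (inv_cont _ (psia_int K (S i) a _ hF)).measurable.enorm.pow_const (2 : ℝ)).pow_const _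
    have a1 := avg 1 hms
    have e0 : ∀ w : E m, cu 1 w = {x : E m | ∀ i, |x i - w i| ≤ 1} := by
      intro w
      unfold Pool.Agent.N492.LS.cu
      norm_num
    have e1 : ∀ w : E m, nrg (m + 1) (fun y => ev k g t y x) w =
        nrg (m + 1) (inv (FF (fun ζ : E (m + 1) => sym k t ζ * 𝓕 (g : E (m + 1) → ℂ) ζ) x)) w := by
      intro w
      congr 1
      funext y
      exact inv_FF hΦ y x
    calc ∫⁻ y : E m, (∑ i ∈ s, ‖inv (fun ζ => psia K (S i) a (hd ζ) *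
          (sym k t ζ * 𝓕 (g : E (m + 1) → ℂ) ζ)) (jn y x)‖ₑ ^ (2 : ℝ)) ^ (p / 2)
        = ∫⁻ y : E m, (∑ i ∈ s, ‖inv (fun η => psia K (S i) a η *
          FF (fun ζ : E (m + 1) => sym k t ζ * 𝓕 (g : E (m + 1) → ℂ) ζ) x η) y‖ₑ ^ (2 : ℝ)) ^
            (p / 2) := by
          refine lintegral_congr fun y => ?_
          congr 1
          refine Finset.sum_congr rfl fun i _ => ?_
          rw [inv_mul_FF (psia K (S i) a) (hΨ i) y x]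
      _ ≤ volume (cu 1 (0 : E m)) * ∫⁻ y : E m, (∑ i ∈ s, ‖inv (fun η => psia K (S i) a η *
          FF (fun ζ : E (m + 1) => sym k t ζ * 𝓕 (g : E (m + 1) → ℂ) ζ) x η) y‖ₑ ^ (2 : ℝ)) ^
            (p / 2) :=
          le_mul_of_one_le_left (by positivity) (vol_cu m)
      _ = ∫⁻ w : E m, ∫⁻ y in cu 1 w, (∑ i ∈ s, ‖inv (fun η => psia K (S i) a η *
          FF (fun ζ : E (m + 1) => sym k t ζ * 𝓕 (g : E (m + 1) → ℂ) ζ) x η) y‖ₑ ^ (2 : ℝ)) ^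
            (p / 2) := a1.symm
      _ ≤ _ := by
          refine lintegral_mono fun w => ?_
          simp only [e0, e1]
          exact h1 s S a Λ hS hΛ hLam _ hF w
  calc ∫⁻ t in Icc (0 : ℝ) 2, ∫⁻ z : E (m + 1),
      (∑ i ∈ s, ‖inv (fun ζ => psia K (S i) a (hd ζ) *
        (sym k t ζ * 𝓕 (g : E (m + 1) → ℂ) ζ)) z‖ₑ ^ (2 : ℝ)) ^ (p / 2)
      ≤ ∫⁻ t in Icc (0 : ℝ) 2, ENNReal.ofReal (C1 * Λ ^ p) *
        ∫⁻ x : ℝ, ∫⁻ w : E m, nrg (m + 1) (fun y => ev k g t y x) w ^ (p / 2) :=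
        setLIntegral_mono' measurableSet_Icc key
    _ = ENNReal.ofReal (C1 * Λ ^ p) * ∫⁻ t in Icc (0 : ℝ) 2, ∫⁻ x : ℝ, ∫⁻ w : E m,
        nrg (m + 1) (fun y => ev k g t y x) w ^ (p / 2) := by
        rw [lintegral_const_mul' _ _ ENNReal.ofReal_ne_top]
    _ ≤ ENNReal.ofReal (C1 * Λ ^ p) * (ENNReal.ofReal (C2 * ((n : ℝ) + 1) ^ A) *
        ∫⁻ z : E (m + 1), ‖g z‖ₑ ^ p) := by gcongr
    _ = _ := by
        rw [← mul_assoc, ← ENNReal.ofReal_mul (by positivity)]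
        congr 2
        ring

end Pool.Agent.K9h71.RC
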