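import Pool.Agent.K9h71.RC.PWB
import Pool.Agent.K9h96.LS.FIN2

/-!
# Project RC (helper71): the solution in a dyadic shell, square function of the blocks
-/

set_option autoImplicit false

open MeasureTheory Set
open scoped ENNReal FourierTransform RealInnerProductSpace SchwartzMap

namespace Pool.Agent.K9h71.RC

open Pool.Agent.N303.LS
open Pool.Agent.K9h96.LS (hd ls S_ENL)
open Pool.Agent.K9h96.LS.FIN (wave_eqh)
open Pool.Agent.K9h71.RD (S_LLV)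

/-- the pieces of the solution -/
noncomputable def Qp {m : ℕ} (K : 𝓢(E m, ℂ)) (S : Finset (Fin m → ℤ)) (a : (Fin m → ℤ) → ℂ)
    (g : 𝓢(E (m + 1), ℂ)) (k : Fin (m + 1) ⊕ Bool) (t : ℝ) (x : E (m + 1)) : ℂ :=
  inv (fun ζ => psia K S a (hd ζ) * (sym k t ζ * 𝓕 (g : E (m + 1) → ℂ) ζ)) x

lemma Qp_meas {m : ℕ} (K : 𝓢(E m, ℂ)) (S : Finset (Fin m → ℤ)) (a : (Fin m → ℤ) → ℂ)
    (g : 𝓢(E (m + 1), ℂ)) (k : Fin (m + 1) ⊕ Bool) :
    Measurable fun q : ℝ × E (m + 1) => Qp K S a g k q.1 q.2 := by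
  have hΨc : Continuous fun ζ : E (m + 1) => psia K S a (hd ζ) := by
    refine (psia_cont K S a).comp ?_
    unfold hd
    fun_prop
  have hc : Measurable (fun q : (ℝ × E (m + 1)) × E (m + 1) =>
      Complex.exp (((2 * Real.pi * ⟪q.1.2, q.2⟫ : ℝ) : ℂ) * Complex.I) *
        (psia K S a (hd q.2) *
          (sym k q.1.1 q.2 * 𝓕 (g : E (m + 1) → ℂ) q.2))) := by
    refine Measurable.mul ?_ (Measurable.mul (hΨc.measurable.comp measurable_snd)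
      (Measurable.mul ?_ ?_))
    · fun_prop
    · have hsn : Measurable fun q : (ℝ × E (m + 1)) × E (m + 1) => sn q.1.1 q.2 := by
        unfold sn
        refine Complex.measurable_ofReal.comp ?_
        fun_prop
      match k with
      | Sum.inl j =>
        show Measurable fun q : (ℝ × E (m + 1)) × E (m + 1) =>
          ((2 * Real.pi * q.2 j : ℝ) : ℂ) * Complex.I * sn q.1.1 q.2
        refine Measurable.mul ?_ hsn
        fun_prop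
      | Sum.inr true =>
        show Measurable fun q : (ℝ × E (m + 1)) × E (m + 1) => cs q.1.1 q.2
        unfold cs
        fun_prop
      | Sum.inr false => exact hsn
    · have h5 : Continuous (𝓕 (g : E (m + 1) → ℂ)) := by
        have h := (𝓕 g : 𝓢(E (m + 1), ℂ)).continuous
        rwa [SchwartzMap.fourier_coe] at h
      exact h5.measurable.comp measurable_snd
  exact (StronglyMeasurable.integral_prod_right (ν := (volume : Measure (E (m + 1))))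
    (f := fun (q : ℝ × E (m + 1)) (ζ : E (m + 1)) =>
      Complex.exp (((2 * Real.pi * ⟪q.2, ζ⟫ : ℝ) : ℂ) * Complex.I) *
        (psia K S a (hd ζ) *
          (sym k q.1 ζ * 𝓕 (g : E (m + 1) → ℂ) ζ)))
    hc.stronglyMeasurable).measurable

lemma sq_sum {m : ℕ} (p : ℝ) (hp : 2 ≤ p) (s : Finset ℕ) (f : ℕ → Fin (m + 1) ⊕ Bool → ℂ) :
    (∑ i ∈ s, ‖∑ k : Fin (m + 1) ⊕ Bool, f i k‖ₑ ^ (2 : ℝ)) ^ (p / 2) ≤
      ENNReal.ofReal (((m : ℝ) + 3) ^ (p - 1)) *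
        ∑ k : Fin (m + 1) ⊕ Bool, (∑ i ∈ s, ‖f i k‖ₑ ^ (2 : ℝ)) ^ (p / 2) := by
  have hq0 : 0 < p / 2 := by linarith
  have hq1 : 1 ≤ p / 2 := by linarith
  have hcard : (Finset.univ : Finset (Fin (m + 1) ⊕ Bool)).card = m + 3 := by simp
  have c2 : ENNReal.ofReal ((m : ℝ) + 3) = ((m + 3 : ℕ) : ℝ≥0∞) := by
    rw [ENNReal.ofReal_add (by positivity) (by norm_num), ENNReal.ofReal_natCast,
      ENNReal.ofReal_ofNat]
    push_cast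
    rfl
  have a1 : ∑ i ∈ s, ‖∑ k : Fin (m + 1) ⊕ Bool, f i k‖ₑ ^ (2 : ℝ) ≤
      ENNReal.ofReal ((m : ℝ) + 3) *
        ∑ k : Fin (m + 1) ⊕ Bool, ∑ i ∈ s, ‖f i k‖ₑ ^ (2 : ℝ) := by
    have e1 : ∀ i, ‖∑ k : Fin (m + 1) ⊕ Bool, f i k‖ₑ ^ (2 : ℝ) ≤
        ENNReal.ofReal ((m : ℝ) + 3) * ∑ k : Fin (m + 1) ⊕ Bool, ‖f i k‖ₑ ^ (2 : ℝ) := by
      intro i
      have h := pow_sum 2 (by norm_num) (Finset.univ : Finset (Fin (m + 1) ⊕ Bool))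
        (fun k => f i k)
      rw [hcard] at h
      have e : (((m + 3 : ℕ) : ℝ)) ^ ((2 : ℝ) - 1) = (m : ℝ) + 3 := by
        rw [show (2 : ℝ) - 1 = 1 by norm_num, Real.rpow_one]
        push_cast
        rfl
      rw [e] at h
      exact h
    refine (Finset.sum_le_sum fun i _ => e1 i).trans (le_of_eq ?_)
    rw [← Finset.mul_sum, Finset.sum_comm]
  refine (ENNReal.rpow_le_rpow a1 hq0.le).trans ?_
  rw [ENNReal.mul_rpow_of_nonneg _ _ hq0.le]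
  have a2 := ENNReal.rpow_sum_le_const_mul_sum_rpow
    (s := (Finset.univ : Finset (Fin (m + 1) ⊕ Bool)))
    (f := fun k => ∑ i ∈ s, ‖f i k‖ₑ ^ (2 : ℝ)) (p := p / 2) hq1
  rw [hcard, ← c2] at a2
  refine (mul_le_mul' le_rfl a2).trans (le_of_eq ?_)
  rw [← mul_assoc, ENNReal.ofReal_rpow_of_nonneg (by positivity) (by positivity),
    ENNReal.ofReal_rpow_of_nonneg (by positivity) (by linarith),
    ← ENNReal.ofReal_mul (by positivity), ← Real.rpow_add (by positivity)]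
  congr 3
  ring

theorem shellB (hL : S_LLV) (hE : S_ENL) (m : ℕ) (hm : 0 < m) (p : ℝ) (hp : 2 ≤ p) (hp4 : p ≤ 4)
    (K : 𝓢(E m, ℂ)) : ∃ (C : ℝ) (A : ℕ), 0 < C ∧
    ∀ (n : ℕ) (f₀ f₁ g₀ : 𝓢(E (m + 1), ℂ)) (g : Fin (m + 1) → 𝓢(E (m + 1), ℂ)),
    (∀ k (ζ : E (m + 1)), (2 : ℝ) ^ n < |ls ζ| → 𝓕 (gen f₀ g₀ g k : E (m + 1) → ℂ) ζ = 0) →
    (∀ ξ, 𝓕 (f₁ : E (m + 1) → ℂ) ξ = 𝓕 (g₀ : E (m + 1) → ℂ) ξ +
      ∑ j, ((2 * Real.pi * ξ j : ℝ) : ℂ) * Complex.I * 𝓕 (g j : E (m + 1) → ℂ) ξ) →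
    ∀ (s : Finset ℕ) (S : ℕ → Finset (Fin m → ℤ)) (a : (Fin m → ℤ) → ℂ) (Λ : ℝ),
    (∀ i j, i ≠ j → Disjoint (S i) (S j)) → 0 ≤ Λ → (∀ i, Lam p Λ (S i) a) →
      ∫⁻ t in Icc (0 : ℝ) 2, ∫⁻ x : E (m + 1),
        (∑ i ∈ s, ‖wave (fun ζ => psia K (S i) a (hd ζ) * 𝓕 (f₀ : E (m + 1) → ℂ) ζ)
        (fun ζ => psia K (S i) a (hd ζ) * 𝓕 (f₁ : E (m + 1) → ℂ) ζ) t x‖ₑ ^ (2 : ℝ)) ^ (p / 2) ≤
      ENNReal.ofReal (C * ((n : ℝ) + 1) ^ A * Λ ^ p) *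
        ∑ k, ∫⁻ x : E (m + 1), ‖gen f₀ g₀ g k x‖ₑ ^ p := by
  obtain ⟨C, A, hC, h⟩ := pwb hL hE m p hm hp hp4 K
  have hp0 : 0 < p := by linarith
  refine ⟨((m : ℝ) + 3) ^ (p - 1) * C, A, by positivity, ?_⟩
  intro n f₀ f₁ g₀ g hz hf s S a Λ hS hΛ hLam
  have hi : ∀ i, ∀ t : ℝ, 0 ≤ t → t ≤ 2 → ∀ k, Integrable fun ζ : E (m + 1) =>
      psia K (S i) a (hd ζ) * (sym k t ζ * 𝓕 (gen f₀ g₀ g k : E (m + 1) → ℂ) ζ) :=
    fun i t h0 h2 k => Pool.Agent.K9h96.LS.PWQ.psia_hd_int K (S i) a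
      (sym_int k t h0 h2 (gen f₀ g₀ g k))
  obtain ⟨G, hG⟩ : ∃ G : Fin (m + 1) ⊕ Bool → ℝ → E (m + 1) → ℝ≥0∞, G = fun k t x =>
    (∑ i ∈ s, ‖Qp K (S i) a (gen f₀ g₀ g k) k t x‖ₑ ^ (2 : ℝ)) ^ (p / 2) := ⟨_, rfl⟩
  have hGm : ∀ k, Measurable fun q : ℝ × E (m + 1) => G k q.1 q.2 := fun k => by
    rw [hG]
    exact (Finset.measurable_sum s fun i _ =>
      ((Qp_meas K (S i) a (gen f₀ g₀ g k) k).enorm).pow_const _).pow_const _
  have hGm' : ∀ k t, Measurable fun x : E (m + 1) => G k t x := fun k t =>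
    (hGm k).comp (measurable_const.prodMk measurable_id)
  have hstep : ∀ t ∈ Icc (0 : ℝ) 2, ∫⁻ x : E (m + 1),
        (∑ i ∈ s, ‖wave (fun ζ => psia K (S i) a (hd ζ) * 𝓕 (f₀ : E (m + 1) → ℂ) ζ)
        (fun ζ => psia K (S i) a (hd ζ) * 𝓕 (f₁ : E (m + 1) → ℂ) ζ) t x‖ₑ ^ (2 : ℝ)) ^ (p / 2) ≤
      ENNReal.ofReal (((m : ℝ) + 3) ^ (p - 1)) *
        ∑ k, ∫⁻ x : E (m + 1), G k t x := by
    intro t ht
    rw [← lintegral_finsetSum _ fun k _ => hGm' k t,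
      ← lintegral_const_mul' _ _ ENNReal.ofReal_ne_top]
    refine lintegral_mono fun x => ?_
    have hw : ∀ i, wave (fun ζ => psia K (S i) a (hd ζ) * 𝓕 (f₀ : E (m + 1) → ℂ) ζ)
        (fun ζ => psia K (S i) a (hd ζ) * 𝓕 (f₁ : E (m + 1) → ℂ) ζ) t x =
        ∑ k, Qp K (S i) a (gen f₀ g₀ g k) k t x := fun i =>
      wave_eqh (fun ζ => psia K (S i) a (hd ζ)) f₀ f₁ g₀ g t (hi i t ht.1 ht.2) hf x
    have h9 := sq_sum p hp s (fun i k => Qp K (S i) a (gen f₀ g₀ g k) k t x)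
    rw [hG]
    refine le_trans (le_of_eq ?_) h9
    congr 1
    refine Finset.sum_congr rfl fun i _ => ?_
    rw [hw i]
  have hms2 : ∀ k, Measurable fun t => ∫⁻ x : E (m + 1), G k t x := fun k =>
    (hGm k).lintegral_prod_right'
  have hk : ∀ k, ∫⁻ t in Icc (0 : ℝ) 2, ∫⁻ x : E (m + 1), G k t x ≤
      ENNReal.ofReal (C * ((n : ℝ) + 1) ^ A * Λ ^ p) *
          ∫⁻ x : E (m + 1), ‖gen f₀ g₀ g k x‖ₑ ^ p := by
    intro k
    rw [hG]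
    exact h n (gen f₀ g₀ g k) (hz k) s S a Λ hS hΛ hLam k
  calc _ ≤ ∫⁻ t in Icc (0 : ℝ) 2, ENNReal.ofReal (((m : ℝ) + 3) ^ (p - 1)) *
        ∑ k, ∫⁻ x : E (m + 1), G k t x := setLIntegral_mono' measurableSet_Icc hstep
    _ = ENNReal.ofReal (((m : ℝ) + 3) ^ (p - 1)) *
        ∑ k, ∫⁻ t in Icc (0 : ℝ) 2, ∫⁻ x : E (m + 1), G k t x := by
        rw [lintegral_const_mul' _ _ ENNReal.ofReal_ne_top,
          lintegral_finsetSum _ fun k _ => hms2 k]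
    _ ≤ ENNReal.ofReal (((m : ℝ) + 3) ^ (p - 1)) *
        ∑ k, ENNReal.ofReal (C * ((n : ℝ) + 1) ^ A * Λ ^ p) *
          ∫⁻ x : E (m + 1), ‖gen f₀ g₀ g k x‖ₑ ^ p :=
        mul_le_mul' le_rfl (Finset.sum_le_sum fun k _ => hk k)
    _ = _ := by
        rw [← Finset.mul_sum, ← mul_assoc, ← ENNReal.ofReal_mul (by positivity)]
        congr 2
        ring

end Pool.Agent.K9h71.RC
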